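import Pool.Agent.Lib.HKR.FC
import Pool.Agent.Lib.HKR.N11
import Pool.Agent.Lib.HKR.K14
/-!
MP_bcb2f6_ag, Q1: for a rigid configuration of `k ≥ 3` lines the Hirzebruch-Kummer coverings
`HK_C(n)` are rigid for `n ≫ 0` if and only if `k ≠ 4, 5`.

The surface `S = HK_C(n)` is the normalisation in `K = ℂ(x, y)(z_0, …)`, `z_i ^ n = ℓ_i / ℓ_0`
(`Kum`), of the blow-up `Y` of the plane at the points on at least three lines (`Pt`, `Regular`);
`Int L y` is the stalk at `y` of the direct image of its structure sheaf.  `ArcRigid` says that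
every formal one-parameter deformation of `S` is trivial, `NearRigid` that the configuration is
rigid, word for word as in the problem.
-/

namespace Pool.Agent.Results.MP_bcb2f6_ag.HirzebruchKummer

open HKR

theorem result : ∀ (k : ℕ) [NeZero k] (L : Fin k → Fin 3 → ℂ), 3 ≤ k → Config L → NearRigid L →
    ((∃ N : ℕ, ∀ n ≥ N, ∀ (K : Type) [Field K] [Algebra Fn K] [Algebra ℂ K]
      [IsScalarTower ℂ Fn K] (z : Fin k → K), Kum L n K z → ArcRigid L K) ↔ k ≠ 4 ∧ k ≠ 5) ∧
    ∀ n > 0, ∃ (K : Type) (_ : Field K) (_ : Algebra Fn K) (_ : Algebra ℂ K)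
      (_ : IsScalarTower ℂ Fn K) (z : Fin k → K), Kum L n K z := by
  intro k _ L hk hC hR
  refine ⟨?_, fun n hn => exists_kum hC hn⟩
  by_cases h : k ≤ 5
  · exact stageC_small k L hk h hC hR
  · exact iff_of_true (rigid_six (by omega) hC hR) ⟨by omega, by omega⟩

end Pool.Agent.Results.MP_bcb2f6_ag.HirzebruchKummer
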