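import Pool.Agent.Lib.HKR.FA
/-!
MP_bcb2f6_ag: for an infinitesimally rigid configuration of at least six lines,
`H¹(S, Θ_S) = 0` for `S = HK_C(n)` and all large `n`.
-/

namespace Pool.Agent.Results.MP_bcb2f6_ag.Infinitesimal

open HKR

theorem result : ∀ (k : ℕ) [NeZero k] (L : Fin k → Fin 3 → ℂ), 6 ≤ k → Config L → InfRigid L →
    ∃ N : ℕ, ∀ n ≥ N, ∀ (K : Type) [Field K] [Algebra Fn K] [Algebra ℂ K] [IsScalarTower ℂ Fn K]
      (z : Fin k → K), Kum L n K z →
      ∀ D : Pt → Derivation ℂ K K, LC L (fun y D => Preserves L y D) D →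
        Glob (fun y D => Preserves L y D) D := by
  intro k _ L hk hC hI
  have hR := affRigid_of_infRigid hI
  obtain ⟨N, hN⟩ := flevel hk hC hR
  refine ⟨max N 2, fun n hn K _ _ _ _ z hz => ?_⟩
  exact klevel_all hC (le_trans (le_max_right _ _) hn) (hN n (le_trans (le_max_left _ _) hn))
    (fzero hC hI (cousin_zero hk hC hR)) K hz

end Pool.Agent.Results.MP_bcb2f6_ag.Infinitesimal
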